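import Pool.Agent.helper5.LDH.Spec

/-!
Project LDH (MP_4467b5_nt), row WGT (spec of helper5): the variation of the weights. Seat helper24.
-/

set_option autoImplicit false

namespace Pool.Agent.LDH

theorem WGT_tel (g : ℕ → ℝ) (m M : ℕ) (h : m ≤ M) :
    ∑ n ∈ Finset.Ico m M, (g (n + 1) - g n) = g M - g m := by
  induction M, h using Nat.le_induction with
  | base => simp
  | succ k hk ih =>
    rw [Finset.sum_Ico_succ_top hk, ih]
    ring

theorem WGT_lg_nonneg (h n : ℕ) (hn : 1 ≤ n) : 0 ≤ lg h n := by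
  unfold lg
  refine Real.log_nonneg ?_
  have h1 : (0 : ℝ) < n := by exact_mod_cast hn
  rw [le_div_iff₀ h1, one_mul]
  push_cast
  have : (0 : ℝ) ≤ h := Nat.cast_nonneg _
  linarith

theorem WGT_lg_anti (h n : ℕ) (hn : 1 ≤ n) : lg h (n + 1) ≤ lg h n := by
  unfold lg
  have h1 : (0 : ℝ) < n := by exact_mod_cast hn
  have h2 : (0 : ℝ) ≤ h := Nat.cast_nonneg _
  push_cast
  refine Real.log_le_log (by positivity) ?_
  rw [div_le_div_iff₀ (by positivity) h1]
  nlinarith

theorem WGT_gg_mono (H : ℝ) (h n : ℕ) (hn : 1 ≤ n) (hH : 0 < H) : gg H h n ≤ gg H h (n + 1) := by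
  unfold gg
  refine Real.exp_le_exp.2 ?_
  have h1 := WGT_lg_nonneg h (n + 1) (by omega)
  have h2 := WGT_lg_anti h n hn
  have h3 : (H * lg h (n + 1)) ^ 2 ≤ (H * lg h n) ^ 2 := by
    refine pow_le_pow_left₀ (by positivity) ?_ 2
    exact mul_le_mul_of_nonneg_left h2 hH.le
  linarith

theorem WGT_gg_le (N : ℕ) (H : ℝ) (h n : ℕ) (hn : 1 ≤ n) (hH : 0 < H) (hN : n + h ≤ 2 * N) :
    gg H h n ≤ Real.exp (-((h : ℝ) / (4 * N / H)) ^ 2) := by
  unfold gg
  refine Real.exp_le_exp.2 ?_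
  have hn' : (0 : ℝ) < n := by exact_mod_cast hn
  have hh : (0 : ℝ) ≤ h := Nat.cast_nonneg _
  have hN' : ((n : ℝ) + h) ≤ 2 * N := by exact_mod_cast hN
  have hNpos : (0 : ℝ) < N := by linarith
  have h1 : (h : ℝ) / (n + h) ≤ lg h n := by
    unfold lg
    have h2 : (0 : ℝ) < ((n + h : ℕ) : ℝ) / n := by
      push_cast
      positivity
    refine le_trans (le_of_eq ?_) (Real.one_sub_inv_le_log_of_pos h2)
    push_cast
    rw [inv_div]
    field_simp
    ring
  have h2 : (h : ℝ) / (2 * N) ≤ lg h n := by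
    refine le_trans ?_ h1
    exact div_le_div_of_nonneg_left hh (by linarith) hN'
  have h3 : (h : ℝ) / (4 * N / H) = H / 2 * (h / (2 * N)) := by
    field_simp
    ring
  have h4 : (h : ℝ) / (4 * N / H) ≤ H / 2 * lg h n := by
    rw [h3]
    exact mul_le_mul_of_nonneg_left h2 (by positivity)
  have h5 : (0 : ℝ) ≤ (h : ℝ) / (4 * N / H) := by positivity
  have h6 : ((h : ℝ) / (4 * N / H)) ^ 2 ≤ (H / 2 * lg h n) ^ 2 := pow_le_pow_left₀ h5 h4 2
  have h7 : (H / 2 * lg h n) ^ 2 = (H * lg h n) ^ 2 / 4 := by ring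
  rw [h7] at h6
  have h8 : -(H * lg h n) ^ 2 / 4 = -((H * lg h n) ^ 2 / 4) := by ring
  rw [h8]
  linarith

theorem WGT : WGT_stmt := by
  intro N h w B H hh1 hhN hH hB hW
  obtain ⟨hw, hvar⟩ := hW
  set G := Real.exp (-((h : ℝ) / (4 * N / H)) ^ 2) with hG
  have hG0 : 0 < G := Real.exp_pos _
  have hgg0 : ∀ n, 0 < gg H h n := fun n => Real.exp_pos _
  have hM : 2 * N - h + h = 2 * N := by omega
  have hggM : ∀ n, N < n → n ≤ 2 * N - h → gg H h n ≤ G := by
    intro n h1 h2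
    exact WGT_gg_le N H h n (by omega) hH (by omega)
  -- the end
  have hend : |w (2 * N - h) * w (2 * N - h + h) * gg H h (2 * N - h)| ≤ G := by
    rw [abs_mul, abs_mul, abs_of_pos (hgg0 _)]
    have h1 : |w (2 * N - h)| ≤ 1 := hw _ (Finset.mem_Ioc.2 ⟨by omega, by omega⟩)
    have h2 : |w (2 * N - h + h)| ≤ 1 := hw _ (Finset.mem_Ioc.2 ⟨by omega, by omega⟩)
    have h3 := hggM (2 * N - h) (by omega) (le_refl _)
    calc |w (2 * N - h)| * |w (2 * N - h + h)| * gg H h (2 * N - h)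
        ≤ 1 * 1 * gg H h (2 * N - h) := by
          refine mul_le_mul_of_nonneg_right ?_ (hgg0 _).le
          exact mul_le_mul h1 h2 (abs_nonneg _) zero_le_one
      _ ≤ G := by linarith
  -- the terms
  have hterm : ∀ n ∈ Finset.Ioo N (2 * N - h), |w (n + 1) * w (n + 1 + h) * gg H h (n + 1) -
      w n * w (n + h) * gg H h n| ≤
      |w (n + 1) - w n| * G + |w (n + h + 1) - w (n + h)| * G + (gg H h (n + 1) - gg H h n) := by
    intro n hn
    obtain ⟨h1, h2⟩ := Finset.mem_Ioo.1 hn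
    have e1 : |w n| ≤ 1 := hw _ (Finset.mem_Ioc.2 ⟨by omega, by omega⟩)
    have e2 : |w (n + h)| ≤ 1 := hw _ (Finset.mem_Ioc.2 ⟨by omega, by omega⟩)
    have e3 : |w (n + 1 + h)| ≤ 1 := hw _ (Finset.mem_Ioc.2 ⟨by omega, by omega⟩)
    have e4 : gg H h (n + 1) ≤ G := hggM (n + 1) (by omega) (by omega)
    have e5 : gg H h n ≤ gg H h (n + 1) := WGT_gg_mono H h n (by omega) hH
    have e6 : n + 1 + h = n + h + 1 := by omega
    rw [e6] at e3 ⊢
    have key : w (n + 1) * w (n + h + 1) * gg H h (n + 1) - w n * w (n + h) * gg H h n =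
        (w (n + 1) - w n) * w (n + h + 1) * gg H h (n + 1) +
        w n * (w (n + h + 1) - w (n + h)) * gg H h (n + 1) +
        w n * w (n + h) * (gg H h (n + 1) - gg H h n) := by ring
    rw [key]
    refine (abs_add_three _ _ _).trans ?_
    have f1 : |(w (n + 1) - w n) * w (n + h + 1) * gg H h (n + 1)| ≤ |w (n + 1) - w n| * G := by
      rw [abs_mul, abs_mul, abs_of_pos (hgg0 _)]
      refine mul_le_mul ?_ e4 (hgg0 _).le (abs_nonneg _)
      calc |w (n + 1) - w n| * |w (n + h + 1)| ≤ |w (n + 1) - w n| * 1 :=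
            mul_le_mul_of_nonneg_left e3 (abs_nonneg _)
        _ = |w (n + 1) - w n| := mul_one _
    have f2 : |w n * (w (n + h + 1) - w (n + h)) * gg H h (n + 1)| ≤
        |w (n + h + 1) - w (n + h)| * G := by
      rw [abs_mul, abs_mul, abs_of_pos (hgg0 _)]
      refine mul_le_mul ?_ e4 (hgg0 _).le (abs_nonneg _)
      calc |w n| * |w (n + h + 1) - w (n + h)| ≤ 1 * |w (n + h + 1) - w (n + h)| :=
            mul_le_mul_of_nonneg_right e1 (abs_nonneg _)
        _ = |w (n + h + 1) - w (n + h)| := one_mul _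
    have f3 : |w n * w (n + h) * (gg H h (n + 1) - gg H h n)| ≤ gg H h (n + 1) - gg H h n := by
      have f4 : 0 ≤ gg H h (n + 1) - gg H h n := by linarith
      rw [abs_mul, abs_mul, abs_of_nonneg f4]
      calc |w n| * |w (n + h)| * (gg H h (n + 1) - gg H h n)
          ≤ 1 * 1 * (gg H h (n + 1) - gg H h n) := by
            refine mul_le_mul_of_nonneg_right ?_ f4
            exact mul_le_mul e1 e2 (abs_nonneg _) zero_le_one
        _ = gg H h (n + 1) - gg H h n := by ring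
    linarith
  have hsum := Finset.sum_le_sum hterm
  rw [Finset.sum_add_distrib, Finset.sum_add_distrib, ← Finset.sum_mul, ← Finset.sum_mul] at hsum
  -- the three sums
  have s1 : ∑ n ∈ Finset.Ioo N (2 * N - h), |w (n + 1) - w n| ≤ B := by
    refine le_trans ?_ hvar
    refine Finset.sum_le_sum_of_subset_of_nonneg ?_ (fun _ _ _ => abs_nonneg _)
    intro n hn
    obtain ⟨h1, h2⟩ := Finset.mem_Ioo.1 hn
    exact Finset.mem_Ioo.2 ⟨h1, by omega⟩
  have s2 : ∑ n ∈ Finset.Ioo N (2 * N - h), |w (n + h + 1) - w (n + h)| ≤ B := by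
    refine le_trans ?_ hvar
    rw [← Finset.sum_image (s := Finset.Ioo N (2 * N - h)) (g := fun n => n + h)
      (f := fun m => |w (m + 1) - w m|) (by
        intro a _ b _ hab
        simpa using hab)]
    refine Finset.sum_le_sum_of_subset_of_nonneg ?_ (fun _ _ _ => abs_nonneg _)
    intro m hm
    obtain ⟨n, hn, rfl⟩ := Finset.mem_image.1 hm
    obtain ⟨h1, h2⟩ := Finset.mem_Ioo.1 hn
    exact Finset.mem_Ioo.2 ⟨by omega, by omega⟩
  have s3 : ∑ n ∈ Finset.Ioo N (2 * N - h), (gg H h (n + 1) - gg H h n) ≤ G := by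
    have h1 : Finset.Ioo N (2 * N - h) = Finset.Ico (N + 1) (2 * N - h) := by
      ext n
      rw [Finset.mem_Ioo, Finset.mem_Ico]
      omega
    rw [h1, WGT_tel (gg H h) (N + 1) (2 * N - h) (by omega)]
    have h2 := hggM (2 * N - h) (by omega) (le_refl _)
    have h3 := hgg0 (N + 1)
    linarith
  have t1 := mul_le_mul_of_nonneg_right s1 hG0.le
  have t2 := mul_le_mul_of_nonneg_right s2 hG0.le
  have t3 : (2 * B + 3) * G = B * G + B * G + G + G + G := by ring
  rw [t3]
  linarith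

end Pool.Agent.LDH
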